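import Pool.Agent.TH612.CF.Kc

set_option autoImplicit false

/-!
The `2k`-th moments of the Riemann zeta function, smoothed in a real shift: the full main term with
a square-root remainder, for every `k`.
-/

namespace Pool.Agent.Results.MP_07318d_nt.SquareRootBands

open Complex MeasureTheory Filter Asymptotics
open scoped ContDiff

noncomputable section

/-- The shifted `2k`-th moment: `k - m` of the `k` factors `ζ(1/2 + i t)` are shifted by `+y` and `m`
of them by `-y`, and `m` of the `k` factors `ζ(1/2 - i t)` are shifted by `+y` and `k - m` of them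
by `-y`. At `y = 0` it is `∫_0^T |ζ(1/2 + i t)| ^ (2k) dt`. -/
def moment (k m : ℕ) (T y : ℝ) : ℂ :=
  ∫ t in (0 : ℝ)..T,
    riemannZeta (1 / 2 + I * (t + y)) ^ (k - m) * riemannZeta (1 / 2 + I * (t - y)) ^ m *
      (riemannZeta (1 / 2 - I * (t + y)) ^ m * riemannZeta (1 / 2 - I * (t - y)) ^ (k - m))

/-- The divisor function `d_k(n)`: the number of ordered factorisations of `n` into `k` factors. -/
def dk (k n : ℕ) : ℕ := (Nat.finMulAntidiag k n).card

/-- The main term. -/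
def main (k m : ℕ) (ψ : ℝ → ℂ) (T : ℝ) : ℂ :=
  ((2 * Real.pi / Real.log T : ℝ) : ℂ) * ∑' n : ℕ, (dk k n : ℂ) ^ 2 / n *
    ∫ t in (1 : ℝ)..T, ψ ((2 * Real.log n - 2 * m * Real.log (t / (2 * Real.pi))) / Real.log T)

/-- The Fourier transform `φ(x) = ∫ ψ(ξ) exp(i ξ x) dξ`. -/
def hat (ψ : ℝ → ℂ) (x : ℝ) : ℂ := ∫ ξ : ℝ, ψ ξ * exp (I * ξ * x)

lemma hat_eq (ψ : ℝ → ℂ) (x L : ℝ) : hat ψ (x * L) = Pool.Agent.W182.KO.P ψ (L * x * I) := by
  unfold hat Pool.Agent.W182.KO.P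
  congr 1; funext ξ
  congr 2
  push_cast; ring

/-- the first `m` indices -/
def SS (k m : ℕ) : Finset (Fin k) := Finset.univ.filter fun j => (j : ℕ) < m

lemma SS_card {k m : ℕ} (hm : m ≤ k) : (SS k m).card = m := by
  unfold SS
  rw [Fin.card_filter_val_lt, min_eq_right hm]

lemma prod_SS {k m : ℕ} (hm : m ≤ k) (a b : ℂ) :
    (∏ j : Fin k, if j ∈ SS k m then a else b) = a ^ m * b ^ (k - m) := by
  rw [Finset.prod_ite, Finset.prod_const, Finset.prod_const]
  congr 2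
  · have : Finset.univ.filter (fun j : Fin k => j ∈ SS k m) = SS k m := by ext j; simp
    rw [this, SS_card hm]
  · have h1 := Finset.card_filter_add_card_filter_not (s := (Finset.univ : Finset (Fin k)))
      (fun j => j ∈ SS k m)
    have : Finset.univ.filter (fun j : Fin k => j ∈ SS k m) = SS k m := by ext j; simp
    rw [this, SS_card hm, Finset.card_univ, Fintype.card_fin] at h1
    omega

open Pool.Agent.TH612.CF in
lemma moment_eq {k m : ℕ} (hm : m ≤ k) (T y : ℝ) :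
    moment k m T y = ∫ t in (0 : ℝ)..T, ZM (fun _ : Fin k => (0:ℝ)) (SS k m) (1 / 2 + (y + t : ℝ) * I) *
      ZM (fun _ : Fin k => (0:ℝ)) (SS k m) (1 / 2 + (y - t : ℝ) * I) := by
  unfold moment ZM
  refine intervalIntegral.integral_congr fun t _ => ?_
  simp only [Complex.ofReal_zero, zero_mul, sub_zero, add_zero]
  rw [prod_SS hm, prod_SS hm]
  have e1 : (1 / 2 + I * (t + y) : ℂ) = 1 / 2 + (y + t : ℝ) * I := by push_cast; ring
  have e2 : (1 / 2 + I * (t - y) : ℂ) = 1 - (1 / 2 + (y - t : ℝ) * I) := by push_cast; ring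
  have e3 : (1 / 2 - I * (t + y) : ℂ) = 1 - (1 / 2 + (y + t : ℝ) * I) := by push_cast; ring
  have e4 : (1 / 2 - I * (t - y) : ℂ) = 1 / 2 + (y - t : ℝ) * I := by push_cast; ring
  rw [e1, e2, e3, e4]
  ring

open Pool.Agent.TH612.CF Pool.Agent.W182.KO in
lemma main_eq {k m : ℕ} {ξ1 : ℝ} {ψ : ℝ → ℂ} (h : TF ξ1 ψ) {κ : ℝ} (hκ : 0 < κ) {T : ℝ}
    (hT : Real.exp 1 ≤ T) :
    main k m ψ T = ∫ t in (1:ℝ)..T, Kd m ((∑ _j ∈ SS k m, (0:ℝ)) + ∑ _j ∈ SS k m, (0:ℝ)) ψ
      (fun _ : Fin k => (0:ℝ)) (fun _ : Fin k => (0:ℝ)) κ (Real.log T) t := by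
  rw [Kd_closed m _ h hκ _ _ hT]
  unfold main
  congr 1
  refine tsum_congr fun n => ?_
  have e1 : Pool.Agent.W182.KO.tau (fun _ : Fin k => -(((0:ℝ) : ℂ) * I)) n = (dk k n : ℂ) := by
    unfold Pool.Agent.W182.KO.tau dk
    simp
  rw [e1, sq]
  congr 1
  refine intervalIntegral.integral_congr fun t _ => ?_
  simp only [gg]
  have e2 : ((∑ _j ∈ SS k m, (0:ℝ)) + ∑ _j ∈ SS k m, (0:ℝ)) = 0 := by simp
  rw [e2]
  simp only [zero_mul, Complex.ofReal_zero, exp_zero, one_mul]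
  congr 1
  ring

open Pool.Agent.TH612.CF Pool.Agent.W182.KO in
/-- For every `k`, every `m ≤ k` and every smooth compactly supported `ψ` vanishing on
`(η - 2m, ∞)`, the shifted `2k`-th moment averaged over the shift `y` with the weight
`φ(y log T)` equals the main term up to `O(T ^ θ)`, for every `θ > max(1/2, η/2)`. -/
theorem result (k m : ℕ) (hm : m ≤ k) (η : ℝ) (ψ : ℝ → ℂ) (hψ : ContDiff ℝ ∞ ψ)
    (hc : HasCompactSupport ψ) (hs : ∀ ξ : ℝ, η - 2 * (m : ℝ) < ξ → ψ ξ = 0) :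
    (∀ T : ℝ, Real.exp 1 ≤ T → Integrable fun y : ℝ => hat ψ (y * Real.log T) * moment k m T y) ∧
    ∀ θ : ℝ, 1 / 2 < θ → η / 2 < θ →
      (fun T : ℝ => (∫ y : ℝ, hat ψ (y * Real.log T) * moment k m T y) - main k m ψ T) =O[atTop]
        fun T : ℝ => T ^ θ := by
  have h : TF (η - 2 * (m : ℝ)) ψ := ⟨hψ, hc, hs⟩
  set z : Fin k → ℝ := fun _ => 0 with hz
  refine ⟨fun T hTe => ?_, fun θ hθ1 hθ2 => ?_⟩
  · have hT0 : 0 < T := (Real.exp_pos 1).trans_le hTe
    have hL : 1 ≤ Real.log T := by rwa [Real.le_log_iff_exp_le hT0]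
    obtain ⟨M1, hM1⟩ := ZM_DQ one_pos z
    obtain ⟨C1, G1⟩ := hM1 (SS k m) M1 le_rfl (RR z) le_rfl
    have hi := (I0_prodint_q h G1 G1 hL T).integral_prod_right
    refine hi.congr (Eventually.of_forall fun y => ?_)
    simp only
    rw [hat_eq, moment_eq hm, intervalIntegral.integral_of_le hT0.le, ← integral_const_mul]
  · obtain ⟨κ, hκ, hκ2⟩ : ∃ κ : ℝ, 0 < κ ∧ ((η - 2 * (m : ℝ)) + 2 * m) * (1 / 2 + 4 * κ) < θ := by
      rcases le_or_gt η 0 with h0 | h0
      · refine ⟨1, one_pos, ?_⟩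
        nlinarith
      · refine ⟨(θ - η / 2) / (8 * η), by have : 0 < θ - η / 2 := by linarith
                                          positivity, ?_⟩
        have : (η - 2 * (m : ℝ) + 2 * m) * (1 / 2 + 4 * ((θ - η / 2) / (8 * η))) =
            η / 2 + (θ - η / 2) / 2 := by field_simp; ring
        rw [this]
        linarith
    obtain ⟨C, T1, hC, hT1, hb⟩ := Z_part h hκ z z (S := SS k m) (S' := SS k m) (SS_card hm)
      (SS_card hm) hθ1.le hκ2
    refine IsBigO.of_bound C ?_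
    filter_upwards [eventually_ge_atTop T1] with T hT
    have hTe : Real.exp 1 ≤ T := hT1.trans hT
    have hT0 : 0 < T := (Real.exp_pos 1).trans_le hTe
    rw [Real.norm_of_nonneg (by positivity : 0 ≤ T ^ θ)]
    have h1 := hb T hT
    rw [← main_eq h hκ hTe] at h1
    simp only [hat_eq, moment_eq hm]
    exact h1

end

end Pool.Agent.Results.MP_07318d_nt.SquareRootBands
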